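import Mathlib
import Pool.Agent.R473.FV.Fam
import Pool.Agent.Run7.h227.JP.Sep
import Pool.Agent.Run7.h6.ZM.Meas

/-!
# Finite-state predictors for the digits of `ζ(7), ζ(9), ζ(11), ζ(13)`, each in its own base

One of the four numbers `ζ(7), ζ(9), ζ(11), ζ(13)` is irrational (`MP_c2395a_nt`, hand-in
`OddZeta7To13`). A predictor with `Q` states reads the digits of a number one after the other and
predicts each next digit from its state; a number is rational if and only if for its digits in a given
base some predictor makes only finitely many errors. We prove: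

(1) for four predictors, one for each number, each in a base of its own, an inequality between the
lengths of the prefixes, the numbers of states and the TOTAL number of errors;

(2) if `θ + 36 c < 1` then at EVERY large scale `X`, whatever the four bases are, for one of the four
numbers every predictor with `Q log b ≤ X^θ` makes more than `c log X` errors on the first
`X / log b` digits (the digits of weight at least `e^(-X)`); the bound for `X` does not depend on the
bases, and `Q` may be different for the four numbers;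

(3) for every `θ < 1` one of the four numbers is such that in EVERY base, for infinitely many `N`, every
predictor with at most `N^θ` states makes more than `((1 - θ)/36) log N` errors on the first `N`
digits.

The companion hand-in `JointPredictors` is about one machine which reads all four expansions in
the same base.

The proof: without errors an automaton is autonomous and its state runs into a cycle, which gives a
rational approximation of the corresponding number; the approximations for the four numbers are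
combined on the common time scale `n log b` (`Pool.Agent.R473.FV.separate`, starting library) against
the simultaneous measure with exponent `1814` (`Pool.Agent.Run7.h6.ZM.measure`, by the authors of
`OddZeta7To13`).
-/

set_option autoImplicit false

open Finset

namespace Pool.Agent.Results.MP_4f096c_nt.SeparatePredictors

/-- the `i`-th digit of `x` after the point in base `b` -/
noncomputable def digit (b : ℕ) (x : ℝ) (i : ℕ) : ℤ := ⌊x * (b : ℝ) ^ i⌋ % (b : ℤ)

/-- A predictor: a finite automaton with `Q` states, transitions `δ`, initial state `q₀` and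
predictions `out`. -/
structure Predictor where
  /-- the number of states -/
  Q : ℕ
  /-- the next state -/
  δ : Fin Q → ℤ → Fin Q
  /-- the initial state -/
  q₀ : Fin Q
  /-- the prediction -/
  out : Fin Q → ℤ

/-- the state of the predictor after it has read `d 1, …, d n` -/
def Predictor.state (M : Predictor) (d : ℕ → ℤ) : ℕ → Fin M.Q
  | 0 => M.q₀
  | n + 1 => M.δ (M.state d n) (d (n + 1))

/-- the number of errors on the first `N` terms of `d`: the number of `n < N` such that the
prediction made after reading `d 1, …, d n` is not `d (n + 1)` -/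
def Predictor.errors (M : Predictor) (d : ℕ → ℤ) (N : ℕ) : ℕ :=
  ((range N).filter fun n => M.out (M.state d n) ≠ d (n + 1)).card

/-- the number `ζ(j)`, for `j ≥ 2` -/
noncomputable def zeta (j : ℕ) : ℝ := ∑' n : ℕ, 1 / ((n : ℝ) + 1) ^ j

/-- the four arguments -/
def T : Finset ℕ := {7, 9, 11, 13}

theorem state_eq (M : Predictor) (d : ℕ → ℤ) (n : ℕ) :
    M.state d n = Pool.Agent.R473.FP.run M.δ M.q₀ d n := by
  induction n with
  | zero => rfl
  | succ n ih =>
    change M.δ (M.state d n) (d (n + 1)) = M.δ (Pool.Agent.R473.FP.run M.δ M.q₀ d n) (d (n + 1))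
    rw [ih]

theorem errors_eq (M : Predictor) (d : ℕ → ℤ) (N : ℕ) :
    M.errors d N = Pool.Agent.R473.FP.errors M.δ M.q₀ M.out d N := by
  unfold Predictor.errors Pool.Agent.R473.FP.errors
  simp only [state_eq]

/-- the simultaneous measure -/
theorem meas : ∃ c : ℝ, 0 < c ∧ ∀ q : ℕ, 1 ≤ q → ∀ p : ℕ → ℤ,
    ∃ j ∈ T, c ≤ (q : ℝ) ^ ((1814 : ℝ) - 1) * |(q : ℝ) * zeta j - p j| := by
  obtain ⟨c, hc, h⟩ := Pool.Agent.Run7.h6.ZM.measure
  refine ⟨c, hc, fun q hq p => ?_⟩
  have hq0 : (0 : ℝ) < q := by exact_mod_cast hq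
  obtain ⟨j, hj, hv⟩ := h p q hq
  refine ⟨j, hj, ?_⟩
  have h4 : c / (q : ℝ) ^ 1814 ≤ |zeta j - (p j : ℝ) / q| := hv
  rw [div_le_iff₀ (by positivity)] at h4
  have e1 : (q : ℝ) ^ ((1814 : ℝ) - 1) = (q : ℝ) ^ 1813 := by
    rw [← Real.rpow_natCast]
    norm_num
  have e2 : |(q : ℝ) * zeta j - p j| = q * |zeta j - (p j : ℝ) / q| := by
    nth_rewrite 2 [← abs_of_pos hq0]
    rw [← abs_mul]
    congr 1
    field_simp
  rw [e1, e2]
  calc c ≤ |zeta j - (p j : ℝ) / q| * (q : ℝ) ^ 1814 := h4
    _ = _ := by ring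

theorem log_num : 4 * Real.log (4 * 1814) < 36 := by
  suffices h : Real.log (4 * 1814) < 9 by linarith
  rw [Real.log_lt_iff_lt_exp (by positivity)]
  have h2 : Real.exp 9 = Real.exp 1 ^ 9 := by
    rw [← Real.exp_nat_mul]
    norm_num
  rw [h2]
  have h3 := Real.exp_one_gt_d9
  calc (4 * 1814 : ℝ) < 2.7182818283 ^ 9 := by norm_num
    _ ≤ _ := pow_le_pow_left₀ (by norm_num) h3.le 9

theorem card_T : T.card = 4 := by decide

/-- **Predicting the digits of `ζ(7), ζ(9), ζ(11), ζ(13)`.** -/
theorem result : (∀ j : ℕ, 1 < j → ((zeta j : ℝ) : ℂ) = riemannZeta (j : ℂ)) ∧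
    -- (1) four predictors in four bases
    (∃ C : ℝ, ∀ b : ℕ → ℕ, (∀ j ∈ T, 2 ≤ b j) → ∀ (M : ℕ → Predictor) (N : ℕ → ℕ),
      ∃ j ∈ T, N j * Real.log (b j) ≤
        (∑ i ∈ range (∑ j ∈ T, (M j).errors (digit (b j) (zeta j)) (N j) + 1), (7256 : ℝ) ^ i) *
          (1814 * ∑ j ∈ T, (((M j).Q : ℝ) + 1) * Real.log (b j) + C)) ∧
    -- (2) at every large scale, for all bases, one of the numbers is hard
    (∀ θ c : ℝ, 0 ≤ θ → 0 ≤ c → θ + 36 * c < 1 → ∃ X₀ : ℝ, ∀ b : ℕ → ℕ, (∀ j ∈ T, 2 ≤ b j) →
      ∀ X : ℝ, X₀ ≤ X → ∃ j ∈ T, ∀ M : Predictor, M.Q * Real.log (b j) ≤ X ^ θ →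
        c * Real.log X < M.errors (digit (b j) (zeta j)) ⌈X / Real.log (b j)⌉₊) ∧
    -- (3) one of the numbers is hard in every base, for infinitely many lengths
    ∀ θ : ℝ, 0 ≤ θ → θ < 1 → ∃ j ∈ T, ∀ b : ℕ, 2 ≤ b → ∀ N₀ : ℕ, ∃ N : ℕ, N₀ ≤ N ∧
      ∀ M : Predictor, (M.Q : ℝ) ≤ (N : ℝ) ^ θ →
        (1 - θ) / 36 * Real.log N < M.errors (digit b (zeta j)) N := by
  classical
  obtain ⟨c0, hc0, hM⟩ := meas
  refine ⟨fun j hj => ?_, ?_, fun θ c hθ hc hlt => ?_, fun θ hθ hθ1 => ?_⟩
  · rw [zeta_eq_tsum_one_div_nat_add_one_cpow (by simpa using hj), zeta, Complex.ofReal_tsum]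
    refine tsum_congr fun n => ?_
    rw [Complex.cpow_natCast]
    push_cast
    rfl
  · refine ⟨Real.log 2 + |Real.log c0|, fun b hb M N => ?_⟩
    have h := Pool.Agent.R473.FV.fam_sep T zeta 1814 c0 (by norm_num) hc0 hM b hb
      (fun j => (M j).Q) (fun j => (M j).δ) (fun j => (M j).q₀) (fun j => (M j).out) N
    rw [card_T] at h
    have e : ((4 : ℕ) : ℝ) * 1814 = 7256 := by norm_num
    rw [e] at h
    simp only [errors_eq]
    exact h
  · obtain ⟨X₀, hX₀⟩ := Run7.h227.JP.sep_large (ι := {j // j ∈ T}) (fun j => zeta j) 1814 c0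
      (by norm_num) hc0 (fun q hq p => by
        obtain ⟨j, hj, h⟩ := hM q hq fun i => if h : i ∈ T then p ⟨i, h⟩ else 0
        refine ⟨⟨j, hj⟩, ?_⟩
        rw [dif_pos hj] at h
        exact h) θ c hθ hc (by
        rw [Fintype.card_coe, card_T]
        push_cast
        have := mul_le_mul_of_nonneg_left log_num.le hc
        linarith)
    refine ⟨X₀, fun b hb X hX => ?_⟩
    obtain ⟨j, hj⟩ := hX₀ (fun j => b j) (fun j => hb j j.2) X hX
    refine ⟨j, j.2, fun M hQ => ?_⟩
    rw [errors_eq]
    exact hj M.Q M.δ M.q₀ M.out hQ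
  · obtain ⟨j, hj, h⟩ := Pool.Agent.R473.FV.fam_hard T zeta 1814 c0 (by norm_num) hc0 hM θ
      ((1 - θ) / 36) hθ (by
        have : 0 < 1 - θ := by linarith
        positivity) (by
        have h2 : 0 < 1 - θ := by linarith
        rw [card_T, div_mul_eq_mul_div, div_lt_iff₀ (by norm_num)]
        push_cast
        exact mul_lt_mul_of_pos_left log_num h2)
    refine ⟨j, hj, fun b hb N₀ => ?_⟩
    obtain ⟨N, hN, h4⟩ := h b hb N₀
    refine ⟨N, hN, fun M hQ => ?_⟩
    rw [errors_eq]
    exact h4 M.Q M.δ M.q₀ M.out hQ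

end Pool.Agent.Results.MP_4f096c_nt.SeparatePredictors
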